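import Mathlib
import Pool.Agent.Lib.MP_b004e2_gt.Defs
import Pool.Agent.Lib.MP_b004e2_gt.CL.Line

set_option autoImplicit false

namespace Pool.Agent.Results.MP_b004e2_gt.Clopen

open Pool.Agent.Lib.MP_b004e2_gt

/-- For manifolds `M` of positive dimension and `N` (any number of components), some group
`G_{f₀}^M` is isomorphic to no group `G_f^N` exactly when `M` is not homeomorphic to an open and
closed subset of `N`. -/
theorem result :
    ∀ (m n : ℕ), 1 ≤ m → ∀ (M N : Type) [TopologicalSpace M] [T2Space M]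
      [SecondCountableTopology M] [ChartedSpace (EuclideanSpace ℝ (Fin m)) M]
      [TopologicalSpace N] [T2Space N] [SecondCountableTopology N]
      [ChartedSpace (EuclideanSpace ℝ (Fin n)) N],
      (∃ f₀ : M → ℝ, Continuous f₀ ∧
          ∀ f : N → ℝ, Continuous f → IsEmpty (levelGroup f₀ ≃* levelGroup f)) ↔
        ∀ A : Set N, IsClopen A → IsEmpty (M ≃ₜ A) := by
  intro m n hm M N _ _ _ _ _ _ _ _
  constructor
  · rintro ⟨f₀, hf₀, h⟩ A hA
    refine ⟨fun e => ?_⟩
    have := ChartedSpace.locallyCompactSpace (EuclideanSpace ℝ (Fin n)) N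
    obtain ⟨f, hf, ⟨Φ⟩⟩ := levelGroup_of_clopen
      (hA.isOpen.isOpenEmbedding_subtypeVal.comp e.isOpenEmbedding)
      (by rw [e.surjective.range_comp, Subtype.range_coe]; exact hA.isClosed) hf₀
    exact (h f hf).false Φ
  · intro h
    by_contra hc
    push Not at hc
    obtain ⟨ψ, h1, h2⟩ := clopen_case m n hm M N hc
    exact (h _ ⟨h2, h1.isOpen_range⟩).false h1.isEmbedding.toHomeomorph

end Pool.Agent.Results.MP_b004e2_gt.Clopen
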