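import Mathlib
import Pool.Agent.Lib.MP_b004e2_gt.Defs
import Pool.Agent.Lib.MP_b004e2_gt.Main

set_option autoImplicit false

namespace Pool.Agent.Results.MP_b004e2_gt.Connected

open Pool.Agent.Lib.MP_b004e2_gt

/-- For connected manifolds `M` and `N` that are not homeomorphic, some group `G_{f₀}^M` is
isomorphic to no group `G_f^N` exactly when `M` has more than one point. -/
theorem result :
    ∀ (m n : ℕ) (M N : Type) [TopologicalSpace M] [T2Space M] [SecondCountableTopology M]
      [ChartedSpace (EuclideanSpace ℝ (Fin m)) M] [ConnectedSpace M]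
      [TopologicalSpace N] [T2Space N] [SecondCountableTopology N]
      [ChartedSpace (EuclideanSpace ℝ (Fin n)) N] [ConnectedSpace N],
      IsEmpty (M ≃ₜ N) →
        ((∃ f₀ : M → ℝ, Continuous f₀ ∧
          ∀ f : N → ℝ, Continuous f → IsEmpty (levelGroup f₀ ≃* levelGroup f)) ↔ Nontrivial M) := by
  intro m n M N _ _ _ _ _ _ _ _ _ _ hne
  refine ⟨fun ⟨f₀, _, h⟩ => ?_, fun _ => connected_case m n M N hne⟩
  by_contra hM
  have := not_nontrivial_iff_subsingleton.1 hM
  have := ChartedSpace.locallyCompactSpace (EuclideanSpace ℝ (Fin n)) N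
  obtain ⟨r, hr, hr'⟩ := exists_rigid_fun' N
  have : Unique (levelGroup f₀) :=
    ⟨⟨1⟩, fun T => Subtype.ext (Homeomorph.ext fun x => Subsingleton.elim _ _)⟩
  have : Unique (levelGroup r) := ⟨⟨1⟩, fun T => Subtype.ext (Homeomorph.ext (hr' T.1 T.2))⟩
  exact (h r hr).false MulEquiv.ofUnique

end Pool.Agent.Results.MP_b004e2_gt.Connected
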