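import Mathlib
import Pool.Agent.Lib.MP_b004e2_gt.Defs
import Pool.Agent.Lib.MP_b004e2_gt.SumGroup

set_option autoImplicit false

namespace Pool.Agent.Results.MP_b004e2_gt.Disproof

open Pool.Agent.Lib.MP_b004e2_gt

/-- For every connected `n`-manifold `M` there is an `n`-manifold `N` (compact if `M` is), not
homeomorphic to `M`, such that every group `G_{f₀}^M` is isomorphic to some group `G_f^N`. -/
theorem result :
    ∀ (n : ℕ) (M : Type) [TopologicalSpace M] [T2Space M] [SecondCountableTopology M]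
      [ChartedSpace (EuclideanSpace ℝ (Fin n)) M] [ConnectedSpace M],
      ∃ (N : Type) (_ : TopologicalSpace N) (_ : T2Space N) (_ : SecondCountableTopology N)
        (_ : ChartedSpace (EuclideanSpace ℝ (Fin n)) N),
        (CompactSpace M → CompactSpace N) ∧ IsEmpty (M ≃ₜ N) ∧
        ∀ f₀ : M → ℝ, Continuous f₀ →
          ∃ f : N → ℝ, Continuous f ∧ Nonempty (levelGroup f₀ ≃* levelGroup f) := by
  intro n M _ _ _ _ _
  let K : Type := Metric.sphere (0 : EuclideanSpace ℝ (Fin (n + 1))) 1
  have hKne : Nonempty K := (NormedSpace.sphere_nonempty.2 zero_le_one).to_subtype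
  refine ⟨M ⊕ K, inferInstance, inferInstance, inferInstance, inferInstance,
    fun _ => inferInstance, ⟨fun e => ?_⟩, fun f₀ hf₀ => ?_⟩
  · have hc : ConnectedSpace (M ⊕ K) := e.surjective.connectedSpace e.continuous
    have hcl : IsClopen (Set.range (Sum.inl : M → M ⊕ K)) :=
      ⟨isClosed_range_inl, isOpen_range_inl⟩
    have huniv := hcl.eq_univ (Set.range_nonempty _)
    obtain ⟨k⟩ := hKne
    have : (Sum.inr k : M ⊕ K) ∈ Set.range (Sum.inl : M → M ⊕ K) := by rw [huniv]; trivial
    obtain ⟨m, hm⟩ := this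
    exact Sum.inl_ne_inr hm
  · obtain ⟨r, hr⟩ := exists_rigid_fun K
    obtain ⟨m₀⟩ : Nonempty M := inferInstance
    obtain ⟨b, hb⟩ := (isCompact_range r.continuous).bddBelow
    refine ⟨Sum.elim f₀ (fun k => r k + (f₀ m₀ - b + 1)),
      hf₀.sumElim (r.continuous.add continuous_const),
      levelGroup_sum f₀ _ m₀ (fun k => ?_) (fun T hT => hr T fun p => ?_)⟩
    · have : b ≤ r k := hb ⟨k, rfl⟩
      linarith
    · have := hT p
      linarith

end Pool.Agent.Results.MP_b004e2_gt.Disproof
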